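import Pool.Agent.helper54.XP.SpecL

/-!
# Module AFF of project xp: (MP_af9036_an): the iterates are nearly affine

Copy of helper13/V3/AFF.lean.
-/

set_option autoImplicit false

open Complex Metric Set Filter Topology MeasureTheory XP

open V3S (UF)

noncomputable section

namespace XPL

theorem AFF (hINJ : INJ_stmt) (hBA1 : BA1_stmt) (hKO0 : V3.KO0_stmt) (hKO3 : V3.KO3_stmt) :
    AFF_stmt := by
  intro n C₀ D hS hT
  obtain ⟨A', -, hg⟩ := hS.seq.good
  refine ⟨?_, ?_⟩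
  · have h1 := hINJ n C₀ D hS hT 1 one_pos
    filter_upwards [h1] with m hm j hj
    obtain ⟨-, -, -, -, -, -, hdiff, -⟩ := hBA1 n C₀ _ (D m) (hg m)
    exact hKO0 ((D m).F j) (ball 0 1) isOpen_ball (hdiff j).differentiableOn (hm j hj) 0
      (mem_ball_self one_pos)
  · intro ρ hρ ε hε
    obtain ⟨C, hC, hK⟩ := hKO3 (1 / 2) (by norm_num) (by norm_num)
    set ρ' : ℝ := max (2 * ρ) (C * ρ / ε) with hρ'
    have hρ1 : 2 * ρ ≤ ρ' := le_max_left _ _
    have hρ2 : C * ρ / ε ≤ ρ' := le_max_right _ _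
    have hρ0 : 0 < ρ' := by linarith
    have h1 := hINJ n C₀ D hS hT ρ' hρ0
    filter_upwards [h1] with m hm j hj x hx
    obtain ⟨-, -, -, -, -, -, hdiff, -⟩ := hBA1 n C₀ _ (D m) (hg m)
    obtain ⟨-, hK2⟩ := hK ((D m).F j) 0 ρ' hρ0 (hdiff j).differentiableOn (hm j hj)
    rw [mem_ball_zero_iff] at hx
    obtain ⟨-, -, -, h4⟩ := hK2 x (by
      rw [mem_ball_zero_iff]
      linarith)
    rw [sub_zero] at h4
    refine h4.trans ?_
    show C * (‖x‖ / ρ') * ‖deriv ((D m).F j) 0‖ ≤ ε * ‖deriv ((D m).F j) 0‖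
    refine mul_le_mul_of_nonneg_right ?_ (norm_nonneg _)
    have h5 : C * ρ ≤ ε * ρ' := by
      rw [div_le_iff₀ hε] at hρ2
      linarith
    calc C * (‖x‖ / ρ') = C * ‖x‖ / ρ' := by ring
      _ ≤ C * ρ / ρ' := by
          refine div_le_div_of_nonneg_right ?_ hρ0.le
          exact mul_le_mul_of_nonneg_left hx.le (by linarith)
      _ ≤ ε := by
          rw [div_le_iff₀ hρ0]
          exact h5

end XPL
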