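import Pool.Agent.helper60.XP.SpecE

/-!
# Module PDE of project xp: (MP_af9036_an): `B''` tends to `0` away from the line of poles

Copy of helper58/V3/PDE.lean for the limit object `XPE.Lim`.
-/

set_option autoImplicit false

open Complex Metric Set Filter Topology MeasureTheory
open V3 (En ZL)

noncomputable section

namespace XPE

theorem PDE_summable : Summable (fun k : ℤ => 3 / (1 + (k : ℝ) ^ 2)) := by
  have h1 : Summable (fun k : ℤ => 1 / (k : ℝ) ^ 2) :=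
    Real.summable_one_div_int_pow.2 (by norm_num)
  have h2 : Summable (fun k : ℤ => if k = 0 then (3 : ℝ) else 0) :=
    summable_of_finite_support ((Set.finite_singleton (0 : ℤ)).subset (by
      intro k hk
      by_contra hne
      have : k ≠ 0 := hne
      simp [this] at hk))
  have h3 : Summable (fun k : ℤ => 3 * (1 / (k : ℝ) ^ 2) + (if k = 0 then (3 : ℝ) else 0)) :=
    (h1.mul_left 3).add h2
  refine Summable.of_nonneg_of_le (fun k => by positivity) (fun k => ?_) h3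
  by_cases hk : k = 0
  · subst hk
    simp
  · have hk' : (0 : ℝ) < (k : ℝ) ^ 2 := by
      have : (k : ℝ) ≠ 0 := by exact_mod_cast hk
      positivity
    simp only [hk, if_false, add_zero]
    rw [← mul_div_assoc, mul_one]
    exact div_le_div_of_nonneg_left (by norm_num) hk' (by linarith)

/-- the elementary bound of one summand. -/
theorem PDE_term (x t : ℂ) (ht : t ≠ 0) (C : ℝ) (gp : ℂ) (hg : ‖gp‖ ≤ C) (k : ℤ)
    (hY : 1 ≤ |(x / t).im|) :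
    ‖6 / (x - ((⌊(x / t).re⌋ + k : ℤ) : ℂ) * t) ^ 4 + 2 * gp / (x - ((⌊(x / t).re⌋ + k : ℤ) : ℂ) * t) ^ 3‖ ≤
      ((6 / ‖t‖ ^ 4 + 2 * C / ‖t‖ ^ 3) / |(x / t).im|) * (3 / (1 + (k : ℝ) ^ 2)) := by
  set z : ℂ := x / t with hz
  set n : ℤ := ⌊z.re⌋ + k with hn
  have hx : x = z * t := by rw [hz]; field_simp
  set Y : ℝ := |z.im| with hYdef
  set D : ℝ := ‖z - (n : ℂ)‖ with hD
  have ht' : 0 < ‖t‖ := norm_pos_iff.2 ht
  have hC : 0 ≤ C := le_trans (norm_nonneg _) hg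
  have hDsq : D ^ 2 = (z.re - n) ^ 2 + z.im ^ 2 := by
    rw [hD, ← Complex.normSq_eq_norm_sq, Complex.normSq_apply]
    simp
    ring
  have hYsq : Y ^ 2 = z.im ^ 2 := by rw [hYdef, sq_abs]
  have hDY : Y ≤ D := by
    have : Y ^ 2 ≤ D ^ 2 := by rw [hDsq, hYsq]; nlinarith [sq_nonneg (z.re - n)]
    exact (sq_le_sq₀ (by positivity) (norm_nonneg _)).1 this
  have hD1 : 1 ≤ D := le_trans hY hDY
  have hD0 : 0 < D := by linarith
  have hY0 : 0 < Y := by linarith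
  have hsub : ‖x - (n : ℂ) * t‖ = D * ‖t‖ := by
    rw [hx, ← sub_mul, norm_mul]
  have hf0 : 0 ≤ z.re - ⌊z.re⌋ := sub_nonneg.2 (Int.floor_le _)
  have hf1 : z.re - ⌊z.re⌋ ≤ 1 := by linarith [Int.lt_floor_add_one z.re]
  have hk : 1 + (k : ℝ) ^ 2 ≤ 3 * D ^ 2 := by
    have hnr : (n : ℝ) = ⌊z.re⌋ + k := by rw [hn]; push_cast; ring
    have hY1 : 1 ≤ z.im ^ 2 := by rw [← hYsq]; nlinarith
    rw [hDsq, hnr]
    set f : ℝ := z.re - ⌊z.re⌋ with hf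
    have : z.re - (⌊z.re⌋ + (k : ℝ)) = f - k := by rw [hf]; ring
    rw [this]
    nlinarith [sq_nonneg (2 * f - (k : ℝ)), sq_nonneg (f - 2 * (k - f)), hf0, hf1, mul_nonneg hf0 (sub_nonneg.2 hf1), sq_nonneg (f + (f - k))]
  have h4 : ‖(6 : ℂ) / (x - (n : ℂ) * t) ^ 4‖ = 6 / (D ^ 4 * ‖t‖ ^ 4) := by
    rw [norm_div, norm_pow, hsub, mul_pow]; norm_num
  have h3 : ‖2 * gp / (x - (n : ℂ) * t) ^ 3‖ ≤ 2 * C / (D ^ 3 * ‖t‖ ^ 3) := by
    rw [norm_div, norm_pow, hsub, mul_pow, norm_mul]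
    have : ‖(2 : ℂ)‖ = 2 := by norm_num
    rw [this]
    gcongr
  have h5 : 6 / (D ^ 4 * ‖t‖ ^ 4) ≤ 6 / ‖t‖ ^ 4 * (1 / D ^ 3) := by
    rw [div_mul_div_comm, mul_one]
    apply div_le_div_of_nonneg_left (by norm_num) (by positivity)
    have : D ^ 3 ≤ D ^ 4 := pow_le_pow_right₀ hD1 (by norm_num)
    nlinarith [pow_pos ht' 4]
  have h6 : 2 * C / (D ^ 3 * ‖t‖ ^ 3) = 2 * C / ‖t‖ ^ 3 * (1 / D ^ 3) := by
    field_simp
  have h7 : 1 / D ^ 3 ≤ 1 / Y * (3 / (1 + (k : ℝ) ^ 2)) := by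
    rw [div_mul_div_comm, div_le_div_iff₀ (by positivity) (by positivity)]
    calc 1 * (Y * (1 + (k : ℝ) ^ 2)) ≤ D * (3 * D ^ 2) := by
          rw [one_mul]
          exact mul_le_mul hDY hk (by positivity) (by positivity)
      _ = 1 * 3 * D ^ 3 := by ring
  have hC' : 0 ≤ 6 / ‖t‖ ^ 4 + 2 * C / ‖t‖ ^ 3 := by positivity
  calc ‖6 / (x - (n : ℂ) * t) ^ 4 + 2 * gp / (x - (n : ℂ) * t) ^ 3‖
      ≤ ‖6 / (x - (n : ℂ) * t) ^ 4‖ + ‖2 * gp / (x - (n : ℂ) * t) ^ 3‖ := norm_add_le _ _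
    _ ≤ 6 / ‖t‖ ^ 4 * (1 / D ^ 3) + 2 * C / ‖t‖ ^ 3 * (1 / D ^ 3) := by
        rw [h4, ← h6]
        exact add_le_add h5 h3
    _ = (6 / ‖t‖ ^ 4 + 2 * C / ‖t‖ ^ 3) * (1 / D ^ 3) := by ring
    _ ≤ (6 / ‖t‖ ^ 4 + 2 * C / ‖t‖ ^ 3) * (1 / Y * (3 / (1 + (k : ℝ) ^ 2))) :=
        mul_le_mul_of_nonneg_left h7 hC'
    _ = ((6 / ‖t‖ ^ 4 + 2 * C / ‖t‖ ^ 3) / Y) * (3 / (1 + (k : ℝ) ^ 2)) := by ring

/-- the parametrization of the lattice line, shifted by `m`. -/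
def PDE_equiv (t : ℂ) (ht : t ≠ 0) (m : ℤ) : ℤ ≃ (ZL t : Set ℂ) :=
  Equiv.ofBijective (fun k => ⟨((m + k : ℤ) : ℂ) * t, ⟨m + k, rfl⟩⟩) (by
    constructor
    · intro a b hab
      have h := congrArg Subtype.val hab
      simp only at h
      have h2 := mul_right_cancel₀ ht h
      have h3 : m + a = m + b := by exact_mod_cast h2
      omega
    · rintro ⟨p, n, hn⟩
      refine ⟨n - m, ?_⟩
      apply Subtype.ext
      simp only
      rw [← hn]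
      congr 2
      omega)

theorem PDE : PDE_stmt := by
  intro P A g B v q θ t hL ht hP
  obtain ⟨C, hC⟩ := hL.hg
  set S : ℝ := ∑' k : ℤ, 3 / (1 + (k : ℝ) ^ 2) with hS
  refine ⟨(6 / ‖t‖ ^ 4 + 2 * C / ‖t‖ ^ 3) * S, ?_⟩
  intro x hY
  have hxP : x ∉ P := by
    intro hx
    rw [hP] at hx
    obtain ⟨n, hn⟩ := hx
    have hxt : x / t = (n : ℂ) := by rw [← hn]; field_simp
    rw [hxt] at hY
    simp at hY
    linarith
  rw [hL.B2 x hxP]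
  subst hP
  rw [← (PDE_equiv t ht ⌊(x / t).re⌋).tsum_eq]
  have hsum : HasSum (fun k : ℤ => ((6 / ‖t‖ ^ 4 + 2 * C / ‖t‖ ^ 3) / |(x / t).im|) * (3 / (1 + (k : ℝ) ^ 2)))
      (((6 / ‖t‖ ^ 4 + 2 * C / ‖t‖ ^ 3) / |(x / t).im|) * S) :=
    PDE_summable.hasSum.mul_left _
  have hfin : ((6 / ‖t‖ ^ 4 + 2 * C / ‖t‖ ^ 3) / |(x / t).im|) * S =
      (6 / ‖t‖ ^ 4 + 2 * C / ‖t‖ ^ 3) * S / |(x / t).im| := by ring
  rw [← hfin]
  refine tsum_of_norm_bounded hsum (fun k => ?_)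
  exact PDE_term x t ht C _ (hC _ (Subtype.property _)) k hY

end XPE
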